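import Pool.Agent.H3.RB.Stm

set_option autoImplicit false
set_option linter.all false

open scoped ENNReal Topology
open MeasureTheory Filter Set

namespace Pool.Agent.H54.RB

open Pool.Agent.H3.RB

theorem GRD : S_GRD := by
  intro d hd
  have hd' : (1 : ℝ) ≤ d := by exact_mod_cast hd
  refine ⟨(1 / (24 * d)) ^ d, 12 * d, by positivity, by linarith, ?_⟩
  intro x r lam hr hlam
  have hlam0 : 0 < lam := by linarith
  have hx : ‖(x : EE d)‖ = 1 := by simpa using x.2
  have hx0 : (x : EE d) ≠ 0 := by
    intro h0; rw [h0, norm_zero] at hx; exact zero_ne_one hx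
  haveI : Fact (Module.finrank ℝ (EE d) = d + 1) := ⟨by simp⟩
  let e0 := OrthonormalBasis.fromOrthogonalSpanSingleton (𝕜 := ℝ) d hx0
  let e : Fin d → EE d := fun i => (e0 i : EE d)
  have he : Orthonormal ℝ e := by
    have := e0.orthonormal
    rw [orthonormal_iff_ite] at this ⊢
    intro i j
    exact this i j
  have hex : ∀ i, inner ℝ (x : EE d) (e i) = 0 := by
    intro i
    have := (e0 i).2
    rw [Submodule.mem_orthogonal_singleton_iff_inner_right] at this
    exact this
  let k : ℕ := ⌊lam / (12 * d)⌋₊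
  have hk1 : (k : ℝ) ≤ lam / (12 * d) := Nat.floor_le (by positivity)
  have hk2 : lam / (24 * d) ≤ k := by
    have h1 : lam / (12 * d) < k + 1 := Nat.lt_floor_add_one _
    have h2 : 1 ≤ lam / (12 * d) := by rw [le_div_iff₀ (by positivity)]; linarith
    have h3' : 1 ≤ k := (Nat.one_le_floor_iff _).2 h2
    have h3 : (1 : ℝ) ≤ k := by exact_mod_cast h3'
    have h4 : lam / (12 * d) = 2 * (lam / (24 * d)) := by field_simp; ring
    linarith
  let Y : (Fin d → Fin k) → EE d := fun a => ∑ i, ((3 * r / lam) * ((a i : ℕ) : ℝ)) • e i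
  have hYin : ∀ a i, inner ℝ (e i) (Y a) = (3 * r / lam) * ((a i : ℕ) : ℝ) := by
    intro a i
    exact he.inner_right_fintype _ i
  refine ⟨k ^ d, fun j => Y (finFunctionFinEquiv.symm j), ?_, ?_⟩
  · push_cast
    rw [← mul_pow]
    refine pow_le_pow_left₀ (by positivity) ?_ d
    calc 1 / (24 * (d : ℝ)) * lam = lam / (24 * d) := by ring
      _ ≤ k := hk2
  · intro i
    refine ⟨?_, ?_, ?_⟩
    · simp only [Y]
      rw [inner_sum]
      refine Finset.sum_eq_zero fun j _ => ?_
      rw [inner_smul_right, hex, mul_zero]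
    · set a := finFunctionFinEquiv.symm i
      calc ‖Y a‖ ≤ ∑ j, ‖((3 * r / lam) * ((a j : ℕ) : ℝ)) • e j‖ := norm_sum_le _ _
        _ ≤ ∑ j : Fin d, (3 * r / lam) * (lam / (12 * d)) := by
          refine Finset.sum_le_sum fun j _ => ?_
          rw [norm_smul, he.1 j, mul_one, Real.norm_eq_abs, abs_of_nonneg (by positivity)]
          refine mul_le_mul_of_nonneg_left ?_ (by positivity)
          have h1 : ((a j : ℕ) : ℝ) ≤ k := by exact_mod_cast (a j).2.le
          linarith
        _ = r / 4 := by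
          rw [Finset.sum_const, Finset.card_univ, Fintype.card_fin, nsmul_eq_mul]
          field_simp
          ring
    · intro j hij
      set a := finFunctionFinEquiv.symm i with ha
      set b := finFunctionFinEquiv.symm j with hb
      have hab : a ≠ b := fun h => hij (finFunctionFinEquiv.symm.injective h)
      obtain ⟨l, hl⟩ := Function.ne_iff.1 hab
      have h1 : inner ℝ (e l) (Y a - Y b) = (3 * r / lam) * (((a l : ℕ) : ℝ) - ((b l : ℕ) : ℝ)) := by
        rw [inner_sub_right, hYin, hYin]; ring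
      have h2 : |inner ℝ (e l) (Y a - Y b)| ≤ ‖Y a - Y b‖ := by
        have := abs_real_inner_le_norm (e l) (Y a - Y b)
        rwa [he.1 l, one_mul] at this
      have h3 : (1 : ℝ) ≤ |((a l : ℕ) : ℝ) - ((b l : ℕ) : ℝ)| := by
        have h4 : ((a l : ℕ) : ℤ) - ((b l : ℕ) : ℤ) ≠ 0 := by
          intro h5
          apply hl
          apply Fin.ext
          omega
        have h5 := Int.one_le_abs h4
        have h6 : ((|((a l : ℕ) : ℤ) - ((b l : ℕ) : ℤ)| : ℤ) : ℝ) = |((a l : ℕ) : ℝ) - ((b l : ℕ) : ℝ)| := by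
          push_cast; rfl
        rw [← h6]
        exact_mod_cast h5
      calc 3 * r / lam = (3 * r / lam) * 1 := by ring
        _ ≤ (3 * r / lam) * |((a l : ℕ) : ℝ) - ((b l : ℕ) : ℝ)| :=
          mul_le_mul_of_nonneg_left h3 (by positivity)
        _ = |inner ℝ (e l) (Y a - Y b)| := by
          rw [h1, abs_mul, abs_of_nonneg (show (0 : ℝ) ≤ 3 * r / lam by positivity)]
        _ ≤ _ := h2

end Pool.Agent.H54.RB
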