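import Pool.Agent.H3.RB.Stm

set_option autoImplicit false
set_option linter.all false

open scoped ENNReal Topology Pointwise
open MeasureTheory Filter Set

namespace Pool.Agent.H54.RB

open Pool.Agent.H3.RB

/-- `AA` as a linear map -/
noncomputable def AL {d : ℕ} (x : EE d) (lam : ℝ) (y : EE d) : EE d →ₗ[ℝ] EE d where
  toFun := AA x lam y
  map_add' p q := by
    unfold AA
    rw [inner_add_right]; module
  map_smul' c p := by
    unfold AA
    rw [inner_smul_right]
    simp only [RingHom.id_apply]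
    module

theorem AL_apply {d : ℕ} (x : EE d) (lam : ℝ) (y p : EE d) : AL x lam y p = AA x lam y p := rfl

theorem det_AL {d : ℕ} (x : EE d) (lam : ℝ) (y : EE d) (hx : ‖x‖ = 1) (hlam : 0 < lam)
    (hxy : inner ℝ x y = 0) : LinearMap.det (AL x lam y) = lam ^ d := by
  let b := (EuclideanSpace.basisFun (Fin (d + 1)) ℝ).toBasis
  rw [← LinearMap.det_toMatrix b]
  let z : EE d := (1 - lam) • x - lam • y
  have h1 : LinearMap.toMatrix b b (AL x lam y) =
      lam • (1 + Matrix.replicateCol Unit (fun i => lam⁻¹ * z i) * Matrix.replicateRow Unit (fun j => x j)) := by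
    ext i j
    rw [LinearMap.toMatrix_apply]
    have hb : b j = EuclideanSpace.single j 1 := by simp [b]
    rw [hb, AL_apply, AA]
    simp [b, Matrix.mul_apply, Matrix.one_apply, EuclideanSpace.inner_single_right, z]
    split_ifs
    · field_simp
    · field_simp
      ring
  rw [h1, Matrix.det_smul, Matrix.det_one_add_replicateCol_mul_replicateRow]
  have h2 : inner ℝ x z = 1 - lam := by
    simp only [z]
    rw [inner_sub_right, inner_smul_right, inner_smul_right, hxy, real_inner_self_eq_norm_sq, hx]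
    ring
  have h3 : dotProduct (fun j => x j) (fun i => lam⁻¹ * z i) = lam⁻¹ * (1 - lam) := by
    rw [← h2]
    simp only [dotProduct, PiLp.inner_apply, Finset.mul_sum]
    refine Finset.sum_congr rfl fun i _ => ?_
    simp
    ring
  rw [h3]
  simp
  field_simp
  ring

/-- the open cone of radius one over a set of the sphere -/
def cone {d : ℕ} (T : Set (Sph d)) : Set (EE d) := Ioo (0 : ℝ) 1 • ((fun p : Sph d => (p : EE d)) '' T)

theorem mem_cone {d : ℕ} {T : Set (Sph d)} {v : EE d} :
    v ∈ cone T ↔ ∃ s ∈ Ioo (0 : ℝ) 1, ∃ p ∈ T, v = s • (p : EE d) := by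
  unfold cone
  rw [Set.mem_smul]
  constructor
  · rintro ⟨s, hs, _, ⟨p, hp, rfl⟩, rfl⟩
    exact ⟨s, hs, p, hp, rfl⟩
  · rintro ⟨s, hs, p, hp, rfl⟩
    exact ⟨s, hs, _, ⟨p, hp, rfl⟩, rfl⟩

theorem inner_AA {d : ℕ} (x : EE d) (lam : ℝ) (y p : EE d) (hx : ‖x‖ = 1)
    (hxy : inner ℝ x y = 0) : inner ℝ x (AA x lam y p) = inner ℝ x p := by
  unfold AA
  rw [inner_add_right, inner_smul_right, inner_smul_right, inner_sub_right, inner_smul_right,
    inner_smul_right, hxy, real_inner_self_eq_norm_sq, hx]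
  ring

theorem meas_KK {d : ℕ} (x : Sph d) (lam : ℝ) (y : EE d) (T : Set (Sph d))
    (hT : MeasurableSet T) : MeasurableSet (KK x lam y T) := by
  have h1 : KK x lam y T = {p : Sph d | AA (x : EE d) lam y p ≠ 0 ∧
      ‖AA (x : EE d) lam y p‖⁻¹ • AA (x : EE d) lam y p ∈ ((fun p : Sph d => (p : EE d)) '' T)} := by
    ext p
    constructor
    · rintro ⟨q, hq, t, ht, h⟩
      have hqn : ‖(q : EE d)‖ = 1 := by simpa using q.2
      have hq0 : (q : EE d) ≠ 0 := by
        intro h0; rw [h0, norm_zero] at hqn; exact zero_ne_one hqn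
      refine ⟨?_, q, hq, ?_⟩
      · rw [h]; exact smul_ne_zero ht.ne' hq0
      · show (q : EE d) = _
        rw [h, norm_smul, hqn, mul_one, Real.norm_eq_abs, abs_of_pos ht, smul_smul,
          inv_mul_cancel₀ ht.ne', one_smul]
    · rintro ⟨h0, q, hq, h⟩
      refine ⟨q, hq, ‖AA (x : EE d) lam y p‖, norm_pos_iff.2 h0, ?_⟩
      have h' : (q : EE d) = ‖AA (x : EE d) lam y p‖⁻¹ • AA (x : EE d) lam y p := h
      rw [h', smul_smul, mul_inv_cancel₀ (norm_ne_zero_iff.2 h0), one_smul]
  have hcont : Continuous fun p : Sph d => AA (x : EE d) lam y (p : EE d) := by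
    unfold AA
    fun_prop
  have hT' : MeasurableSet ((fun p : Sph d => (p : EE d)) '' T) :=
    (MeasurableEmbedding.subtype_coe (Metric.isClosed_sphere.measurableSet)).measurableSet_image.2 hT
  rw [h1]
  refine MeasurableSet.inter ?_ ?_
  · exact (hcont.measurable (measurableSet_singleton (0 : EE d)).compl)
  · exact ((hcont.measurable.norm.inv).smul hcont.measurable) hT'

theorem VOL : S_VOL := by
  intro d x lam κ y T hlam hκ hκ1 hxy hT hTκ
  have hx : ‖(x : EE d)‖ = 1 := by simpa using x.2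
  have hlam0 : 0 < lam := by linarith
  refine ⟨meas_KK x lam y T hT, ?_⟩
  have hfin : Module.finrank ℝ (EE d) = d + 1 := by simp
  -- the inclusion of cones
  have hsub : (AL (x : EE d) lam y) '' cone (KK x lam y T) ⊆ (κ⁻¹ : ℝ) • cone T := by
    rintro _ ⟨v, hv, rfl⟩
    obtain ⟨s, hs, p, ⟨q, hq, t, ht, h⟩, rfl⟩ := mem_cone.1 hv
    have hp : ‖(p : EE d)‖ = 1 := by simpa using p.2
    have h1 : inner ℝ (x : EE d) (p : EE d) = t * inner ℝ (x : EE d) (q : EE d) := by
      rw [← inner_AA (x : EE d) lam y p hx hxy, h, inner_smul_right]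
    have h2 : |inner ℝ (x : EE d) (p : EE d)| ≤ 1 := by
      have := abs_real_inner_le_norm (x : EE d) (p : EE d)
      rwa [hx, hp, mul_one] at this
    have h3 : t * κ ≤ 1 := by
      calc t * κ ≤ t * |inner ℝ (x : EE d) (q : EE d)| :=
            mul_le_mul_of_nonneg_left (hTκ q hq) ht.le
        _ = |inner ℝ (x : EE d) (p : EE d)| := by rw [h1, abs_mul, abs_of_pos ht]
        _ ≤ 1 := h2
    refine ⟨(s * (t * κ)) • (q : EE d), mem_cone.2 ⟨s * (t * κ), ⟨?_, ?_⟩, q, hq, rfl⟩, ?_⟩
    · have := hs.1; positivity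
    · have h4 : s * (t * κ) ≤ s * 1 := mul_le_mul_of_nonneg_left h3 hs.1.le
      linarith [hs.2]
    · show κ⁻¹ • (s * (t * κ)) • (q : EE d) = AL (x : EE d) lam y (s • (p : EE d))
      rw [map_smul, AL_apply, h, smul_smul, smul_smul]
      congr 1
      field_simp
  have hvol : ENNReal.ofReal (lam ^ d) * volume (cone (KK x lam y T)) ≤
      ENNReal.ofReal ((κ⁻¹) ^ (d + 1)) * volume (cone T) := by
    calc ENNReal.ofReal (lam ^ d) * volume (cone (KK x lam y T))
        = volume ((AL (x : EE d) lam y) '' cone (KK x lam y T)) := by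
          rw [Measure.addHaar_image_linearMap, det_AL _ _ _ hx hlam0 hxy, abs_of_pos (by positivity)]
      _ ≤ volume ((κ⁻¹ : ℝ) • cone T) := measure_mono hsub
      _ = _ := by
          rw [Measure.addHaar_smul, hfin, abs_of_pos (by positivity)]
  have hvol' : volume (cone (KK x lam y T)) ≤
      ENNReal.ofReal (1 / (κ ^ (d + 1) * lam ^ d)) * volume (cone T) := by
    have hL : ENNReal.ofReal (lam ^ d) ≠ 0 := by
      rw [Ne, ENNReal.ofReal_eq_zero, not_le]; positivity
    have h1 : volume (cone (KK x lam y T)) = (ENNReal.ofReal (lam ^ d))⁻¹ *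
        (ENNReal.ofReal (lam ^ d) * volume (cone (KK x lam y T))) := by
      rw [← mul_assoc, ENNReal.inv_mul_cancel hL ENNReal.ofReal_ne_top, one_mul]
    rw [h1]
    refine (mul_le_mul_right hvol _).trans (le_of_eq ?_)
    rw [← mul_assoc, ← ENNReal.ofReal_inv_of_pos (by positivity),
      ← ENNReal.ofReal_mul (by positivity)]
    congr 2
    field_simp
    rw [one_div, inv_pow, inv_mul_cancel₀ (by positivity)]
  unfold unif
  rw [Measure.smul_apply, Measure.smul_apply, Measure.toSphere_apply' _ (meas_KK x lam y T hT),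
    Measure.toSphere_apply' _ hT, smul_eq_mul, smul_eq_mul]
  calc _ ≤ ((volume : Measure (EE d)).toSphere Set.univ)⁻¹ * (↑(Module.finrank ℝ (EE d)) *
        (ENNReal.ofReal (1 / (κ ^ (d + 1) * lam ^ d)) * volume (cone T))) := by
          gcongr
          exact hvol'
    _ = _ := by
          unfold cone
          ring

end Pool.Agent.H54.RB
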